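import Pool.Agent.R39.DomCount

/-!
The density of connected sets of a connected graph with minimum degree at least three
is bounded away from one: it is at most `93/100`.
-/

namespace Pool.Agent.Results.MP_345bc6_co.DensityBound

open Finset
open scoped Classical

/-- The connected sets of `G`: the vertex sets inducing a connected subgraph
(Mathlib's `Connected` includes being nonempty, so the empty set is excluded). -/
noncomputable def connectedSets {V : Type} [Fintype V] (G : SimpleGraph V) :
    Finset (Finset V) :=
  univ.filter (fun U : Finset V => (G.induce (U : Set V)).Connected)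

/-- `A(G)`: the mean order of a connected set of `G`. -/
noncomputable def meanOrder {V : Type} [Fintype V] (G : SimpleGraph V) : ℝ :=
  (∑ U ∈ connectedSets G, (U.card : ℝ)) / ((connectedSets G).card : ℝ)

/-- `D(G) = A(G) / n`: the density of connected sets of `G`. -/
noncomputable def density {V : Type} [Fintype V] (G : SimpleGraph V) : ℝ :=
  meanOrder G / (Fintype.card V : ℝ)

/-- The answer to Q1 is yes, with `c = 93/100 < 1`: every finite connected simple graph in
which every vertex has at least three neighbours has density of connected sets at
most `93/100`. -/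
theorem result (V : Type) [Fintype V] (G : SimpleGraph V) (hG : G.Connected)
    (hdeg : ∀ v : V, 3 ≤ (univ.filter (fun w => G.Adj v w)).card) :
    density G ≤ 93 / 100 := by
  have hcc : connectedSets G = Pool.Agent.H606AC.CC G := by
    ext S
    simp only [connectedSets, mem_filter, mem_univ, true_and]
    rw [Pool.Agent.H606AC.mem_CC, Pool.Agent.H606AC.CS_iff]
  have huniv : Pool.Agent.H606AC.CS G (univ : Finset V) := by
    rw [Pool.Agent.H606AC.CS_iff]
    have e : ((univ : Finset V) : Set V) = Set.univ := coe_univ
    rw [e]
    exact (SimpleGraph.induceUnivIso G).connected_iff.mpr hG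
  have hmain := Pool.Agent.R39.missing_ge huniv (fun v => by convert hdeg v)
  have hNpos : 0 < (connectedSets G).card := by
    rw [card_pos, hcc]
    exact ⟨univ, Pool.Agent.H606AC.mem_CC.mpr huniv⟩
  have hnpos : 0 < Fintype.card V := by
    have := hG.nonempty
    exact Fintype.card_pos
  have hN : (0 : ℝ) < ((connectedSets G).card : ℝ) := by exact_mod_cast hNpos
  have hn : (0 : ℝ) < (Fintype.card V : ℝ) := by exact_mod_cast hnpos
  rw [← hcc] at hmain
  have hsum : ∑ U ∈ connectedSets G, (Uᶜ.card : ℝ) =
      (Fintype.card V : ℝ) * ((connectedSets G).card : ℝ) -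
        ∑ U ∈ connectedSets G, (U.card : ℝ) := by
    have h1 : ∀ U : Finset V, (Uᶜ.card : ℝ) = (Fintype.card V : ℝ) - (U.card : ℝ) := by
      intro U
      rw [card_compl, Nat.cast_sub (card_le_univ U)]
    rw [sum_congr rfl (fun U _ => h1 U), sum_sub_distrib, sum_const, nsmul_eq_mul, mul_comm]
  rw [hsum] at hmain
  unfold density meanOrder
  rw [div_le_iff₀ hn, div_le_iff₀ hN]
  linarith

end Pool.Agent.Results.MP_345bc6_co.DensityBound
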